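import Pool.Agent.Lib.MP_04f1b7_lc.MSide

/-!
# MP_04f1b7_lc: ideal subgroups need not restrict to ideal subgroups

The question asks whether for every complete theory `T`, every `M ⊨ T`, every group `G` definable
in `M` and every `*`-elementary extension `M ≺* N` there is an ideal subgroup `H` of
`S_ext,G(N)` whose image under the restriction map `r : S_ext,G(N) → S_ext,G(M)` is an ideal
subgroup of `S_ext,G(M)`.  The answer is no.

All notions (externally definable sets, `M_ext`, `L_ext,M`, `M ≺* N`, `S_ext,G`, its semigroup
operation, minimal left ideals, ideal subgroups, the restriction map) are defined in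
`Pool.Agent.Lib.MP_04f1b7_lc.Defs` for an arbitrary language `L` and an arbitrary `L`-structure `M`
whose universe is a group with `L`-definable multiplication (the definable group is `G = M`).

The example.  Let `Q_n` be a set with `2^(n+2)` elements and let `G` be the union over `n` of the
symmetric groups of `Q_0 × … × Q_(n-1)`, acting on `∏ Q_n` through finitely many coordinates;
`M = G` with all its relations, and `N` is an ultrapower of `M` over `ℕ`.  Let `κ(g)` be the
parity of the number of `j` with `(g • 0)_j = 1`.  Every ideal subgroup of `S_ext,G(M)` contains
types with `κ = 0` and types with `κ = 1`.  In `N`, however, `κ` agrees with an internal function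
depending on boundedly many coordinates outside sets of infinitesimal density, such sets are in no
almost periodic type, and the action of `G(N)` on internal clopen sets is proximal; so `κ` is
constant on every ideal subgroup of `S_ext,G(N)`.
-/

namespace Pool.Agent.Results.MP_04f1b7_lc.RestrictionFails

open FirstOrder FirstOrder.Language Pool.Agent.Lib.MP_04f1b7_lc

/-- There are a language `L`, an `L`-structure `M` whose universe is a group with `L`-definable
multiplication, and a `*`-elementary extension `N` of `M`, such that for no ideal subgroup `H` of
`S_ext,G(N)` the restriction `r(H)` is an ideal subgroup of `S_ext,G(M)` (here `G = M`). -/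
theorem result :
    ∃ (L : FirstOrder.Language.{0, 0}) (M : Type) (_ : L.Structure M) (_ : Group M)
      (μ : L.Formula (Fin 3)) (_ : IsMulFormula μ M) (N : StarExt L M μ),
      ∀ H : Set (ExtType L N.carrier), IsIdealSubgroup μ H →
        ¬ IsIdealSubgroup μ (N.restrict '' H) :=
  ⟨fullLang G, G, inferInstance, inferInstance, mulF G, inferInstance,
    upExt G (Filter.hyperfilter ℕ), counterexample⟩

end Pool.Agent.Results.MP_04f1b7_lc.RestrictionFails
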